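import Pool.Agent.Helper33.PG.Herbst
import Pool.Agent.Helper94.PG.Tail

/-!
# Project PG (MP_13b103_pr), block B: corollaries of Herbst's bound

`herbst_T`, `upper_mean`, `mean_of_prob`, and the same for a general set of edges
(`herbst_set`, `mean_set`).
-/

set_option autoImplicit false

namespace Pool.Agent.Helper64.PG

open MeasureTheory ProbabilityTheory Filter
open Pool.Agent.Helper79.GR Pool.Agent.Helper79.PG Pool.Agent.Helper33.PG
open scoped Topology

section

variable {Ω : Type*} [MeasurableSpace Ω] {P : Measure Ω} [IsProbabilityMeasure P]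

/-- `Helper94.PG.mean_le` also for `K = 0` -/
theorem mean_le0 {Y : Ω → ℝ} (hY : Measurable Y) {M : ℝ} (hb : ∀ ω, |Y ω| ≤ M) {m K : ℝ}
    (hK : 0 ≤ K) (H : ∀ t : ℝ, 0 ≤ t → ∫ ω, Real.exp (-(t * Y ω)) ∂P ≤
      Real.exp (-(t * m) + t ^ 2 * K / 2))
    {z p : ℝ} (hp : 0 < p) (hz : p ≤ P.real {ω | Y ω ≤ z}) :
    m ≤ z + √(2 * K * Real.log (1 / p)) := by
  have h1 : ∀ ε : ℝ, 0 < ε → m ≤ z + √(2 * (K + ε) * Real.log (1 / p)) := by
    intro ε hε
    refine Pool.Agent.Helper94.PG.mean_le hY hb (by linarith) (fun t ht => (H t ht).trans ?_)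
      hp hz
    refine Real.exp_le_exp.2 ?_
    have := mul_nonneg (sq_nonneg t) hε.le
    nlinarith
  have h2 : Tendsto (fun ε : ℝ => z + √(2 * (K + ε) * Real.log (1 / p))) (𝓝[>] 0)
      (𝓝 (z + √(2 * (K + 0) * Real.log (1 / p)))) := by
    refine Tendsto.mono_left ?_ nhdsWithin_le_nhds
    exact Continuous.tendsto (by fun_prop) 0
  rw [add_zero] at h2
  exact ge_of_tendsto h2 (eventually_nhdsWithin_of_forall fun ε hε => h1 ε hε)

/-- the positive part of the deviation, also for `K = 0` -/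
theorem pos_dev {Y : Ω → ℝ} (hY : Measurable Y) {M : ℝ} (hb : ∀ ω, |Y ω| ≤ M) {K : ℝ}
    (hK : 0 ≤ K) (H : ∀ t : ℝ, 0 ≤ t → ∫ ω, Real.exp (-(t * Y ω)) ∂P ≤
      Real.exp (-(t * ∫ ω, Y ω ∂P) + t ^ 2 * K / 2)) :
    ∫ ω, max (Y ω - ∫ ω', Y ω' ∂P) 0 ∂P ≤ 2 * √K := by
  set m := ∫ ω, Y ω ∂P with hm
  have h1 : ∀ ε : ℝ, 0 < ε → ∫ ω, |Y ω - m| ∂P ≤ 4 * √(K + ε) := by
    intro ε hε
    refine Pool.Agent.Helper94.PG.abs_dev hY hb (by linarith) (fun t ht => (H t ht).trans ?_)
    refine Real.exp_le_exp.2 ?_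
    have := mul_nonneg (sq_nonneg t) hε.le
    nlinarith
  have h2 : Tendsto (fun ε : ℝ => 4 * √(K + ε)) (𝓝[>] 0) (𝓝 (4 * √(K + 0))) := by
    refine Tendsto.mono_left ?_ nhdsWithin_le_nhds
    exact Continuous.tendsto (by fun_prop) 0
  rw [add_zero] at h2
  have h3 : ∫ ω, |Y ω - m| ∂P ≤ 4 * √K :=
    ge_of_tendsto h2 (eventually_nhdsWithin_of_forall fun ε hε => h1 ε hε)
  have hYi : Integrable Y P := Integrable.of_bound hY.aestronglyMeasurable M
    (Eventually.of_forall hb)
  have hmi : Integrable (fun ω => Y ω - m) P := hYi.sub (integrable_const m)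
  have h4 : ∀ ω, max (Y ω - m) 0 = 1 / 2 * (|Y ω - m| + (Y ω - m)) := by
    intro ω
    rcases le_total 0 (Y ω - m) with h | h
    · rw [max_eq_left h, abs_of_nonneg h]
      ring
    · rw [max_eq_right h, abs_of_nonpos h]
      ring
  have h5 : ∫ ω, max (Y ω - m) 0 ∂P = 1 / 2 * ∫ ω, |Y ω - m| ∂P := by
    simp only [h4]
    rw [integral_const_mul, integral_add hmi.abs hmi, integral_sub hYi (integrable_const m)]
    have h6 : ∫ _ω : Ω, m ∂P = m := by simp
    rw [h6, ← hm, sub_self, add_zero]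
  rw [h5]
  linarith

end

variable {Ω : Type*} [MeasurableSpace Ω] {d : ℕ} {P : Measure Ω} {X : Edge d → Ω → ℝ}
  {ν : Measure ℝ} {a b B : ℝ}

theorem CB_nonneg (h : Env P X ν a b) (hB : 0 ≤ B) : 0 ≤ CB a b B := by
  unfold CB
  have := h.apos
  positivity

open Classical in
/-- the passage time for the weights `B` off a set `S` of edges only depends on the part of `S` in a
finite box -/
theorem T_set {c : Edge d → ℝ} (h : Bd a b c) (hB : b ≤ B) (S : Set (Edge d)) (x y : V d)
    {L : ℕ} (hL : B * n1 (y - x) ≤ a * L) :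
    T (S.piecewise c fun _ => B) x y = T (cut B ((box x L).filter fun e => e ∈ S) c) x y := by
  have h1 : Bd a B (S.piecewise c fun _ => B) := by
    refine ⟨h.1, fun e => ?_⟩
    have hab := (h.2 e).1.trans (h.2 e).2
    by_cases he : e ∈ S
    · rw [Set.piecewise_eq_of_mem _ _ _ he]
      exact ⟨(h.2 e).1, (h.2 e).2.trans hB⟩
    · rw [Set.piecewise_eq_of_notMem _ _ _ he]
      exact ⟨hab.trans hB, le_rfl⟩
  have h2 : Bd a B (cut B ((box x L).filter fun e => e ∈ S) c) := by
    refine ⟨h.1, fun e => ?_⟩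
    exact (cut_bd h ((h.2 e).1.trans (h.2 e).2) hB _).2 e
  refine T_congr h1 h2 x y L hL fun e he => ?_
  unfold cut
  by_cases hS : e ∈ S
  · rw [Set.piecewise_eq_of_mem _ _ _ hS, if_pos (Finset.mem_filter.2 ⟨he, hS⟩)]
  · rw [Set.piecewise_eq_of_notMem _ _ _ hS, if_neg]
    exact fun h => hS (Finset.mem_filter.1 h).2

/-- the passage time only depends on a finite box -/
theorem T_box {c : Edge d → ℝ} (h : Bd a b c) (x y : V d) {L : ℕ}
    (hL : b * n1 (y - x) ≤ a * L) : T c x y = T (cut b (box x L) c) x y := by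
  classical
  refine T_congr h ⟨h.1, fun e => ?_⟩ x y L hL fun e he => ?_
  · exact (cut_bd h ((h.2 e).1.trans (h.2 e).2) le_rfl _).2 e
  · unfold cut
    rw [if_pos he]

theorem exists_L (ha : 0 < a) (x : ℝ) : ∃ L : ℕ, x ≤ a * L := by
  obtain ⟨L, hL⟩ := exists_nat_ge (x / a)
  refine ⟨L, ?_⟩
  rw [div_le_iff₀ ha] at hL
  linarith

/-- Herbst's bound for the passage time between any two points -/
theorem herbst_xy (h : Env P X ν a b) (x y : V d) {l : ℝ} (hl : 0 ≤ l) :
    ∫ ω, Real.exp (-(l * T (cf X ω) x y)) ∂P ≤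
      Real.exp (-(l * mm P X (y - x)) + CB a b b * l ^ 2 * n1 (y - x)) := by
  obtain ⟨L, hL⟩ := exists_L h.apos (b * n1 (y - x))
  have h1 : ∀ ω, T (cf X ω) x y = T (cut b (box x L) (cf X ω)) x y :=
    fun ω => T_box (h.cf_bd ω) x y hL
  rw [← integral_T h x y]
  simp only [h1]
  exact herbst_cut h le_rfl _ x y hl

/-- Herbst's bound for the passage time -/
theorem herbst_T (h : Env P X ν a b) (x : V d) {l : ℝ} (hl : 0 ≤ l) :
    ea P X l x ≤ Real.exp (-(l * mm P X x) + CB a b b * l ^ 2 * n1 x) := by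
  have := herbst_xy h 0 x hl
  rwa [sub_zero] at this

theorem b_nonneg (h : Env P X ν a b) (hne : Nonempty (Edge d)) : a ≤ b := by
  have := h.prob
  obtain ⟨ω⟩ := nonempty_of_isProbabilityMeasure P
  obtain ⟨e⟩ := hne
  exact (h.bd e ω).1.trans (h.bd e ω).2

/-- in dimension zero there is only one point -/
theorem eq_of_no_edge (hne : ¬ Nonempty (Edge d)) (x y : V d) : x = y := by
  obtain ⟨w, hw, -⟩ := exists_walk x y
  cases w with
  | nil => exact hw
  | cons s w => exact absurd ⟨ed x s⟩ hne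

/-- the mean deviation above the mean, with the constant -/
theorem upper_mean' (h : Env P X ν a b) (x y : V d) :
    ∫ ω, max (T (cf X ω) x y - mm P X (y - x)) 0 ∂P ≤
      2 * √(2 * CB a b b * n1 (y - x)) := by
  have := h.prob
  rw [← integral_T h x y]
  by_cases hne : Nonempty (Edge d)
  · have hab := b_nonneg h hne
    have hb0 : 0 ≤ b := h.apos.le.trans hab
    refine pos_dev (measurable_T h x y) (M := b * n1 (y - x)) (fun ω => ?_) ?_ fun t ht => ?_
    · have h1 := le_T (h.cf_bd ω) x y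
      have h2 := T_le (h.cf_bd ω) x y
      have h3 : 0 ≤ a * n1 (y - x) := mul_nonneg h.apos.le (n1_nonneg _)
      rw [abs_of_nonneg (h3.trans h1)]
      exact h2
    · exact mul_nonneg (mul_nonneg (by norm_num) (CB_nonneg h hb0)) (n1_nonneg _)
    · refine (herbst_xy h x y ht).trans (le_of_eq ?_)
      rw [integral_T h x y]
      congr 1
      ring
  · have hxy := eq_of_no_edge hne x y
    subst hxy
    have hT : ∀ ω, T (cf X ω) x x = 0 := by
      intro ω
      have hc : Bd a 1 (cf X ω) := ⟨h.apos, fun e => absurd ⟨e⟩ hne⟩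
      refine le_antisymm ?_ ?_
      · have := T_le_cost hc (show pos x [] = x from rfl)
        exact this
      · have := le_T hc x x
        rwa [sub_self, n1_zero, mul_zero] at this
    simp [hT, n1_zero]

/-- the mean deviation above the mean is at most of order `√n` -/
theorem upper_mean (h : Env P X ν a b) :
    ∃ C : ℝ, 0 < C ∧ ∀ x y : V d,
      ∫ ω, max (T (cf X ω) x y - mm P X (y - x)) 0 ∂P ≤ C * √(n1 (y - x)) := by
  refine ⟨2 * √(2 * |CB a b b|) + 1, by positivity, fun x y => ?_⟩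
  refine (upper_mean' h x y).trans ?_
  have h1 : √(2 * CB a b b * n1 (y - x)) ≤ √(2 * |CB a b b|) * √(n1 (y - x)) := by
    rw [← Real.sqrt_mul (by positivity)]
    refine Real.sqrt_le_sqrt ?_
    refine mul_le_mul_of_nonneg_right ?_ (n1_nonneg _)
    have := le_abs_self (CB a b b)
    linarith
  have h2 := Real.sqrt_nonneg (n1 (y - x))
  nlinarith

/-- if the passage time is below `z` with probability at least `p`, its mean is not much larger,
with the constant -/
theorem mean_of_prob' (h : Env P X ν a b) (hB : b ≤ B) (R : Finset (Edge d)) (x y : V d)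
    {z p : ℝ} (hp : 0 < p) (hz : p ≤ P.real {ω | T (cut B R (cf X ω)) x y ≤ z}) :
    ∫ ω, T (cut B R (cf X ω)) x y ∂P ≤
      z + √(4 * CB a b B * n1 (y - x) * Real.log (1 / p)) := by
  have := h.prob
  by_cases hne : Nonempty (Edge d)
  · have hab := b_nonneg h hne
    have hb0 : 0 ≤ b := h.apos.le.trans hab
    have key := mean_le0 (P := P) (measurable_T_cut_env h R x y (B := B))
      (M := B * n1 (y - x)) (m := ∫ ω, T (cut B R (cf X ω)) x y ∂P)
      (K := 2 * CB a b B * n1 (y - x)) (fun ω => ?_) ?_ (fun t ht => ?_) hp hz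
    · refine key.trans (le_of_eq ?_)
      congr 2
      ring
    · have h1 := T_cut_bd (h.cf_bd ω) hab hB R x y
      rw [abs_of_nonneg h1.1]
      exact h1.2
    · exact mul_nonneg (mul_nonneg (by norm_num) (CB_nonneg h (hb0.trans hB))) (n1_nonneg _)
    · refine (herbst_cut h hB R x y ht).trans (le_of_eq ?_)
      congr 1
      ring
  · have hxy := eq_of_no_edge hne x y
    subst hxy
    have hT : ∀ c : Edge d → ℝ, T (cut B R c) x x = 0 := by
      intro c
      have hc : Bd a 1 (cut B R c) := ⟨h.apos, fun e => absurd ⟨e⟩ hne⟩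
      refine le_antisymm ?_ ?_
      · have := T_le_cost hc (show pos x [] = x from rfl)
        exact this
      · have := le_T hc x x
        rwa [sub_self, n1_zero, mul_zero] at this
    simp only [hT] at hz ⊢
    rw [integral_zero, sub_self, n1_zero, mul_zero, zero_mul, Real.sqrt_zero, add_zero]
    by_contra hcon
    have : {ω : Ω | (0 : ℝ) ≤ z} = ∅ := by
      ext ω
      simpa using hcon
    rw [this, measureReal_empty] at hz
    linarith

/-- if the passage time is below `z` with probability at least `p`, its mean is not much larger -/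
theorem mean_of_prob (h : Env P X ν a b) (hB : b ≤ B) :
    ∃ C : ℝ, 0 < C ∧ ∀ (R : Finset (Edge d)) (x y : V d) (z p : ℝ), 0 < p → p ≤ 1 →
      p ≤ P.real {ω | T (cut B R (cf X ω)) x y ≤ z} →
      ∫ ω, T (cut B R (cf X ω)) x y ∂P ≤ z + C * √(n1 (y - x) * Real.log (1 / p)) := by
  refine ⟨√(4 * |CB a b B|) + 1, by positivity, fun R x y z p hp hp1 hz => ?_⟩
  refine (mean_of_prob' h hB R x y hp hz).trans ?_
  have hlog : 0 ≤ Real.log (1 / p) := Real.log_nonneg (by rw [le_div_iff₀ hp]; linarith)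
  have hn := n1_nonneg (y - x)
  have h1 : √(4 * CB a b B * n1 (y - x) * Real.log (1 / p)) ≤
      √(4 * |CB a b B|) * √(n1 (y - x) * Real.log (1 / p)) := by
    rw [← Real.sqrt_mul (by positivity), ← mul_assoc]
    refine Real.sqrt_le_sqrt ?_
    refine mul_le_mul_of_nonneg_right (mul_le_mul_of_nonneg_right ?_ hn) hlog
    have := le_abs_self (CB a b B)
    linarith
  have h2 := Real.sqrt_nonneg (n1 (y - x) * Real.log (1 / p))
  nlinarith

open Classical in
/-- Herbst's bound for the weights `B` off a set of edges -/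
theorem herbst_set (h : Env P X ν a b) (hB : b ≤ B) (S : Set (Edge d)) (x y : V d) {l : ℝ}
    (hl : 0 ≤ l) :
    ∫ ω, Real.exp (-(l * T (S.piecewise (cf X ω) fun _ => B) x y)) ∂P ≤
      Real.exp (-(l * ∫ ω, T (S.piecewise (cf X ω) fun _ => B) x y ∂P) +
        CB a b B * l ^ 2 * n1 (y - x)) := by
  obtain ⟨L, hL⟩ := exists_L h.apos (B * n1 (y - x))
  simp only [fun ω => T_set (h.cf_bd ω) hB S x y hL]
  exact herbst_cut h hB _ x y hl

open Classical in
/-- `mean_of_prob'` for the weights `B` off a set of edges -/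
theorem mean_set (h : Env P X ν a b) (hB : b ≤ B) (S : Set (Edge d)) (x y : V d) {z p : ℝ}
    (hp : 0 < p) (hz : p ≤ P.real {ω | T (S.piecewise (cf X ω) fun _ => B) x y ≤ z}) :
    ∫ ω, T (S.piecewise (cf X ω) fun _ => B) x y ∂P ≤
      z + √(4 * CB a b B * n1 (y - x) * Real.log (1 / p)) := by
  obtain ⟨L, hL⟩ := exists_L h.apos (B * n1 (y - x))
  simp only [fun ω => T_set (h.cf_bd ω) hB S x y hL] at hz ⊢
  exact mean_of_prob' h hB _ x y hp hz

end Pool.Agent.Helper64.PG
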