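import Pool.Agent.Helper64.PG.B
import Pool.Agent.Helper51.NP.A

/-!
# Project PG (MP_13b103_pr), block B in the notation of `Helper51/NP`
-/

set_option autoImplicit false

namespace Pool.Agent.Helper64.NP

open MeasureTheory ProbabilityTheory Filter Pool.Agent.Helper79.GR Pool.Agent.Helper79.GQ
open Pool.Agent.Helper51.NP
open scoped Topology

variable {Ω : Type*} [MeasurableSpace Ω] {P : Measure Ω} {d : ℕ} {X : Edge d → Ω → ℝ}
  {ν : Measure ℝ} {a b B l : ℝ}

theorem herbst (h : Env P X ν a b) (hB : b ≤ B) (S : Set (Edge d)) (hl : 0 ≤ l) (x y : V d) :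
    Zc P X S B l x y ≤
      Real.exp (-(l * mc P X S B x y) + hk a b B * l ^ 2 * n1 (y - x)) :=
  Pool.Agent.Helper64.PG.herbst_set h hB S x y hl

theorem herbst_Z (h : Env P X ν a b) (hl : 0 ≤ l) (v : V d) :
    Z P X l 0 v ≤ Real.exp (-(l * mm P X v) + hk a b b * l ^ 2 * n1 v) :=
  Pool.Agent.Helper64.PG.herbst_T h v hl

/-- if the passage time is below `z` with probability at least `p`, its mean is not much larger -/
theorem mc_le_of_prob (h : Env P X ν a b) (hB : b ≤ B) (S : Set (Edge d)) (x y : V d) (z p : ℝ)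
    (hp : 0 < p) (hpz : p ≤ P.real {ω | T (cut S B (cf X ω)) x y ≤ z}) :
    mc P X S B x y ≤ z + √(4 * hk a b B * n1 (y - x) * Real.log (1 / p)) :=
  Pool.Agent.Helper64.PG.mean_set h hB S x y hp hpz

theorem mm_le_of_Z (h : Env P X ν a b) (hl : 0 < l) (v : V d) (z c : ℝ) (hc : 0 < c)
    (hz : c ≤ Z P X l 0 v * Real.exp (l * z)) :
    mm P X v ≤ z + hk a b b * l * n1 v + Real.log (1 / c) / l := by
  have h1 : c ≤ Real.exp (-(l * mm P X v) + hk a b b * l ^ 2 * n1 v + l * z) := by
    rw [Real.exp_add]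
    exact hz.trans (mul_le_mul_of_nonneg_right (herbst_Z h hl.le v) (Real.exp_pos _).le)
  have h2 : Real.log c ≤ -(l * mm P X v) + hk a b b * l ^ 2 * n1 v + l * z := by
    have := Real.log_le_log hc h1
    rwa [Real.log_exp] at this
  rw [one_div, Real.log_inv]
  have h3 : l * mm P X v ≤ l * (z + hk a b b * l * n1 v + -Real.log c / l) := by
    have : l * (z + hk a b b * l * n1 v + -Real.log c / l) =
        l * z + hk a b b * l ^ 2 * n1 v - Real.log c := by
      field_simp
      ring
    rw [this]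
    linarith
  exact le_of_mul_le_mul_left h3 hl

/-- the mean passage time is not much larger than the annealed one -/
theorem mm_le_al (h : Env P X ν a b) (hl : 0 < l) (v : V d) :
    mm P X v ≤ al P X l v + hk a b b * l * n1 v := by
  have h1 := mm_le_of_Z h hl v (al P X l v) 1 one_pos ?_
  · simpa using h1
  · have h2 := Z_pos (l := l) h 0 v
    have h3 : l * al P X l v = -Real.log (Z P X l 0 v) := by
      unfold al
      field_simp
    rw [h3, Real.exp_neg, Real.exp_log h2, mul_inv_cancel₀ h2.ne']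

private theorem n1_fl_le (n : ℕ) (x : F d) : n1 (fl n x) ≤ n * nr x + d := by
  have h1 : (n : ℝ) * nr x + d = ∑ i : Fin d, (n * |x i| + 1) := by
    rw [Finset.sum_add_distrib, ← Finset.mul_sum]
    simp [nr]
  rw [h1]
  unfold n1 fl
  refine Finset.sum_le_sum fun i _ => ?_
  have h2 := Int.floor_le (n * x i)
  have h3 := Int.lt_floor_add_one (n * x i)
  have h4 : |(n : ℝ) * x i| = n * |x i| := by rw [abs_mul, Nat.abs_cast]
  rw [← h4]
  rcases abs_cases ((⌊(n : ℝ) * x i⌋ : ℤ) : ℝ) with ⟨h5, _⟩ | ⟨h5, _⟩ <;>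
    rcases abs_cases ((n : ℝ) * x i) with ⟨h6, _⟩ | ⟨h6, _⟩ <;> rw [h5, h6] <;> linarith

theorem uu_le_nl (h : Env P X ν a b) (hl : 0 < l) (x : F d) :
    uu P X x ≤ nl P X l x + hk a b b * l * nr x := by
  by_cases hne : Nonempty (Edge d)
  · have hab := Pool.Agent.Helper64.PG.b_nonneg h hne
    have hb0 : 0 ≤ b := h.apos.le.trans hab
    have hk0 : 0 ≤ hk a b b := Pool.Agent.Helper64.PG.CB_nonneg h hb0
    have h1 := tendsto_tc (subM_mm h) x
    have h2 := tendsto_al h hl x
    have h3 : Tendsto (fun n : ℕ => al P X l (fl n x) / n +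
        hk a b b * l * (nr x + d / n)) atTop (𝓝 (nl P X l x + hk a b b * l * (nr x + 0))) := by
      refine h2.add (Tendsto.const_mul _ (tendsto_const_nhds.add ?_))
      exact tendsto_const_div_atTop_nhds_zero_nat (d : ℝ)
    rw [add_zero] at h3
    refine le_of_tendsto_of_tendsto h1 h3 ?_
    filter_upwards [eventually_gt_atTop 0] with n hn
    have hn' : (0 : ℝ) < n := by exact_mod_cast hn
    have h4 := mm_le_al h hl (fl n x)
    have h5 := mul_le_mul_of_nonneg_left (n1_fl_le n x) (mul_nonneg hk0 hl.le)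
    have h6 : al P X l (fl n x) / n + hk a b b * l * (nr x + d / n) =
        (al P X l (fl n x) + hk a b b * l * (n * nr x + d)) / n := by
      field_simp
    show mm P X (fl n x) / n ≤ _
    rw [h6]
    exact div_le_div_of_nonneg_right (by linarith) hn'.le
  · have hd : d = 0 := by
      by_contra hd
      exact hne ⟨ed 0 (⟨0, Nat.pos_of_ne_zero hd⟩, true)⟩
    subst hd
    have h1 := uu_le h x
    have h2 := le_nl h hl x
    have h3 : nr x = 0 := by simp [nr]
    rw [h3] at h1 h2 ⊢
    linarith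

/-- the positive part of the fluctuation -/
theorem pos_part (h : Env P X ν a b) (x y : V d) :
    ∫ ω, max (T (cf X ω) x y - mm P X (y - x)) 0 ∂P ≤
      4 * √((hk a b b + 1) * n1 (y - x)) := by
  refine (Pool.Agent.Helper64.PG.upper_mean' h x y).trans ?_
  have h0 : Pool.Agent.Helper33.PG.CB a b b = hk a b b := rfl
  have h1 : √(2 * Pool.Agent.Helper33.PG.CB a b b * n1 (y - x)) ≤
      √(2 ^ 2 * ((hk a b b + 1) * n1 (y - x))) := by
    refine Real.sqrt_le_sqrt ?_
    rw [h0]
    have h3 := n1_nonneg (y - x)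
    by_cases hne : Nonempty (Edge d)
    · have hab := Pool.Agent.Helper64.PG.b_nonneg h hne
      have hb0 : 0 ≤ b := h.apos.le.trans hab
      have h2 := Pool.Agent.Helper64.PG.CB_nonneg h hb0
      rw [h0] at h2
      nlinarith [mul_nonneg h2 h3]
    · have hxy := Pool.Agent.Helper64.PG.eq_of_no_edge hne x y
      subst hxy
      simp [n1_zero]
  have h2 : √(2 ^ 2 * ((hk a b b + 1) * n1 (y - x))) =
      2 * √((hk a b b + 1) * n1 (y - x)) := by
    rw [Real.sqrt_mul (by norm_num), Real.sqrt_sq (by norm_num)]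
  linarith

end Pool.Agent.Helper64.NP
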